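import Pool.Agent.Helper98.PS.Conv
import Pool.Agent.Helper19.PS.DIV
import Pool.Agent.Helper19.PS.SUP
import Pool.Agent.Helper19.PS.S0
import Pool.Agent.Helper33.PS.CEN
import Pool.Agent.Helper33.PS.F
import Pool.Agent.Helper33.PS.LB
import Pool.Agent.Helper48.PS.E2
import Pool.Agent.Helper50.PS.E1
import Pool.Agent.Helper51.PS.IRF
import Pool.Agent.Helper51.PS.LIN
import Pool.Agent.Helper79.PS.L1
import Pool.Agent.Helper79.PS.COP
import Pool.Agent.Helper79.PS.LNA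
import Pool.Agent.Helper87.PS.SOCQ
import Pool.Agent.Helper87.PS.SYL
import Pool.Agent.Helper87.PS.LOC

set_option autoImplicit false

namespace Pool.Agent.Results.MP_8fcd2c_al.LocallySolubleOpposite

open Pool.Agent.Helper98.PS

/-- Let `p` be a prime and let `G` be a locally finite group with the `p`-minimal condition and a
finite subnormal series whose factors are finite or `p'`-groups. Suppose that every finite
`p'`-subgroup of the subgroup `H` generated by the `p`-elements is soluble. Then `H` is a Chernikov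
group. -/
theorem result (p : ℕ) (hp : p.Prime) (G : Type) [Group G]
    (hlf : ∀ s : Set G, s.Finite → (Subgroup.closure s : Set G).Finite)
    (hm : ¬ ∃ H : ℕ → Subgroup G, ∀ i : ℕ, H (i + 1) < H i ∧
        ∃ g ∈ H i, g ∉ H (i + 1) ∧ ∃ k : ℕ, g ^ (p ^ k) = 1)
    (hs : ∃ n : ℕ, ∃ H : ℕ → Subgroup G, H 0 = ⊥ ∧ H n = ⊤ ∧
        ∀ i < n, H i ≤ H (i + 1) ∧ ((H i).subgroupOf (H (i + 1))).Normal ∧
          ((H i).relIndex (H (i + 1)) ≠ 0 ∨
            ∀ x ∈ H (i + 1), ∀ k : ℕ, x ^ (p ^ k) ∈ H i → x ∈ H i))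
    (hsol : ∀ V : Subgroup G, V ≤ Subgroup.closure {g : G | ∃ k : ℕ, g ^ (p ^ k) = 1} →
      (V : Set G).Finite → (∀ a ∈ V, ∀ k : ℕ, a ^ (p ^ k) = 1 → a = 1) → Group.IsSolvable V) :
    ∃ A : Subgroup G,
      A ≤ Subgroup.closure {g : G | ∃ k : ℕ, g ^ (p ^ k) = 1} ∧
      (A.subgroupOf (Subgroup.closure {g : G | ∃ k : ℕ, g ^ (p ^ k) = 1})).Normal ∧
      A.relIndex (Subgroup.closure {g : G | ∃ k : ℕ, g ^ (p ^ k) = 1}) ≠ 0 ∧
      (∀ a ∈ A, ∀ b ∈ A, a * b = b * a) ∧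
      (∀ a ∈ A, ∀ m : ℕ, 0 < m → ∃ b ∈ A, b ^ m = a) ∧
      {a : G | a ∈ A ∧ ∃ q : ℕ, q.Prime ∧ a ^ q = 1}.Finite := by
  have hDIV := Pool.Agent.Helper19.PS.DIV
  have hSUP := Pool.Agent.Helper19.PS.SUP hDIV com_part
  have hS0 := Pool.Agent.Helper19.PS.S0 (Pool.Agent.Helper19.PS.SUPF hSUP)
  have hSOCQ := Pool.Agent.Helper87.PS.SOCQ
  have hSYL := Pool.Agent.Helper87.PS.SYL
  have hLOC := Pool.Agent.Helper87.PS.LOC hSYL
  have hNCL := ncl_part hLOC
  have hLB := Pool.Agent.Helper33.PS.lb Pool.Agent.Helper79.PS.l1 comm_part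
    Pool.Agent.Helper79.PS.cop half_part
  have hLNA := Pool.Agent.Helper79.PS.lna comm_part fpf_part
  have hL := Pool.Agent.Helper79.PS.l hLNA hLB comm_part fpf_part
  have hIRF := Pool.Agent.Helper51.PS.irf hLOC hL hNCL
  have hIRR := irr_part hIRF
  have hEXT := ext_part ab_part
  have hLIN := Pool.Agent.Helper51.PS.lin hIRR hEXT hNCL
  have hCEN := Pool.Agent.Helper33.PS.cen hLIN ab_part
  have hTOP := top_part hCEN
  have hE1 := Pool.Agent.Helper50.PS.e1 hDIV com_part cmn_part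
  have hE3 := e3_part hNCL
  have hCON := con_part hE1 Pool.Agent.Helper48.PS.e2 hE3 Pool.Agent.Helper33.PS.fF cmn_part
  have hFIN := fin_part quo_part (chq_part hSOCQ) hTOP hCON
  have hRES := res_part min_part (red_part hS0) hFIN lfs_part pms_part hSOCQ
  exact conv_part hDIV hRES p hp G hlf hm hs hsol

end Pool.Agent.Results.MP_8fcd2c_al.LocallySolubleOpposite
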